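import Pool.Agent.H695R2.IsoImp.Hard

/-!
# Isomorphic implication of a disjunctive normal form by a conjunction of variables

The first formula is a conjunction `t_0 ∧ ... ∧ t_s` of variables, so that the question is whether
`s + 1` variables can be set to `1` such that the second formula becomes a tautology. For each
`i ≤ s` there is a group of variables `t_i`, `f_i`, `v_i` with the terms `¬ v_i ∧ t_i` and
`¬ v_i ∧ f_i`; they force that one variable of each group is set to `1`.
-/

namespace Pool.Agent.Y646.II

open Pool.Agent.NPC Pool.Agent.NPC.S2 Pool.Agent.H695R2.IsoImp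

set_option autoImplicit false

/-- The formula is a conjunction of variables. -/
def IsPos : BF → Prop
  | BF.var _ => True
  | BF.and f g => IsPos f ∧ IsPos g
  | _ => False

/-- The formula is in disjunctive normal form: a disjunction of conjunctions of literals. -/
def IsDNF : BF → Prop
  | BF.or f g => IsDNF f ∧ IsDNF g
  | f => f.IsTerm

/-- the variable number `j` (`j < 3`) of the group `i` -/
def gv (m i j : ℕ) : ℕ := m + 3 * i + j

/-- the literal of the new formula for a literal of the old one -/
def rail (s m : ℕ) (l : Bool × ℕ) : Bool × ℕ :=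
  if l.2 < s then (true, if l.1 = true then gv m l.2 0 else gv m l.2 1) else l

/-- the conjunction of the variables `t_i` -/
def phiP (s m : ℕ) : BF := bigAnd (BF.var (gv m s 0)) ((List.range s).map fun i => BF.var (gv m i 0))

/-- the term of a term of the old formula -/
def termP (s m : ℕ) (t : List (Bool × ℕ)) : BF :=
  bigAnd (BF.var (gv m s 2)) (((List.range s).map fun i => BF.var (gv m i 2)) ++
    t.map fun l => lit (rail s m l))

/-- the disjunctive normal form -/
def psiP (s m : ℕ) (D : List (List (Bool × ℕ))) : BF :=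
  bigOr (BF.and (BF.neg (BF.var (gv m s 2))) (BF.var (gv m s 0)))
    (((s :: List.range s).map fun i => BF.and (BF.neg (BF.var (gv m i 2))) (BF.var (gv m i 0))) ++
    (((s :: List.range s).map fun i => BF.and (BF.neg (BF.var (gv m i 2))) (BF.var (gv m i 1))) ++
    D.map (termP s m)))

/-- the reduction -/
def redP (I : List Unit × List Unit × List (List (Bool × ℕ))) : BF × BF :=
  (phiP I.1.length (I.1.length + I.2.1.length), psiP I.1.length (I.1.length + I.2.1.length) I.2.2)

theorem mem_sr {i s : ℕ} : i ∈ s :: List.range s ↔ i ≤ s := by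
  rw [List.mem_cons, List.mem_range]
  omega

theorem isPos_bigAnd {d : BF} {l : List BF} (hd : IsPos d) (hl : ∀ f ∈ l, IsPos f) :
    IsPos (bigAnd d l) := by
  induction l with
  | nil => exact hd
  | cons f l ih => exact ⟨hl f (by simp), ih (fun g hg => hl g (by simp [hg]))⟩

theorem isDNF_bigOr {d : BF} {l : List BF} (hd : IsDNF d) (hl : ∀ f ∈ l, IsDNF f) :
    IsDNF (bigOr d l) := by
  induction l with
  | nil => exact hd
  | cons f l ih => exact ⟨hl f (by simp), ih (fun g hg => hl g (by simp [hg]))⟩

theorem isDNF_of_isTerm : ∀ {f : BF}, f.IsTerm → IsDNF f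
  | BF.var _, h => h
  | BF.neg _, h => h
  | BF.and _ _, h => h
  | BF.or _ _, h => h.elim

theorem isTerm_lit (l : Bool × ℕ) : (lit l).IsTerm := by
  unfold lit
  split_ifs <;> trivial

theorem isPos_phiP (s m : ℕ) : IsPos (phiP s m) := by
  refine isPos_bigAnd trivial fun f hf => ?_
  obtain ⟨i, _, rfl⟩ := List.mem_map.1 hf
  trivial

theorem isDNF_psiP (s m : ℕ) (D : List (List (Bool × ℕ))) : IsDNF (psiP s m D) := by
  refine isDNF_bigOr ⟨trivial, trivial⟩ fun f hf => ?_
  rw [List.mem_append, List.mem_append] at hf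
  rcases hf with hf | hf | hf
  · obtain ⟨i, _, rfl⟩ := List.mem_map.1 hf
    exact ⟨trivial, trivial⟩
  · obtain ⟨i, _, rfl⟩ := List.mem_map.1 hf
    exact ⟨trivial, trivial⟩
  · obtain ⟨t, _, rfl⟩ := List.mem_map.1 hf
    refine isDNF_of_isTerm (isTerm_bigAnd trivial fun g hg => ?_)
    rw [List.mem_append] at hg
    rcases hg with hg | hg
    · obtain ⟨i, _, rfl⟩ := List.mem_map.1 hg
      trivial
    · obtain ⟨l, _, rfl⟩ := List.mem_map.1 hg
      exact isTerm_lit _

theorem eval_phiP {σ : ℕ → Bool} {s m : ℕ} :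
    (phiP s m).eval σ = true ↔ ∀ i ≤ s, σ (gv m i 0) = true := by
  unfold phiP
  rw [eval_bigAnd]
  simp only [List.mem_map, List.mem_range, forall_exists_index, and_imp, forall_apply_eq_imp_iff₂,
    BF.eval]
  constructor
  · rintro ⟨h1, h2⟩ i hi
    rcases hi.lt_or_eq with h | h
    · exact h1 i h
    · subst h; exact h2
  · intro h
    exact ⟨fun i hi => h i hi.le, h s le_rfl⟩

theorem eval_termP {σ : ℕ → Bool} {s m : ℕ} {t : List (Bool × ℕ)} :
    (termP s m t).eval σ = true ↔ (∀ i ≤ s, σ (gv m i 2) = true) ∧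
      ∀ l ∈ t, σ (rail s m l).2 = (rail s m l).1 := by
  unfold termP
  rw [eval_bigAnd]
  constructor
  · rintro ⟨h1, h2⟩
    refine ⟨fun i hi => ?_, fun l hl => ?_⟩
    · rcases hi.lt_or_eq with h | h
      · exact h1 _ (List.mem_append_left _ (List.mem_map.2 ⟨i, List.mem_range.2 h, rfl⟩))
      · subst h; exact h2
    · exact eval_lit.1 (h1 _ (List.mem_append_right _ (List.mem_map.2 ⟨l, hl, rfl⟩)))
  · rintro ⟨h1, h2⟩
    refine ⟨fun f hf => ?_, h1 s le_rfl⟩
    rw [List.mem_append] at hf
    rcases hf with hf | hf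
    · obtain ⟨i, hi, rfl⟩ := List.mem_map.1 hf
      exact h1 i (List.mem_range.1 hi).le
    · obtain ⟨l, hl, rfl⟩ := List.mem_map.1 hf
      exact eval_lit.2 (h2 l hl)

theorem eval_psiP {σ : ℕ → Bool} {s m : ℕ} {D : List (List (Bool × ℕ))} :
    (psiP s m D).eval σ = true ↔
      (∃ i ≤ s, σ (gv m i 2) = false ∧ (σ (gv m i 0) = true ∨ σ (gv m i 1) = true)) ∨
      ((∀ i ≤ s, σ (gv m i 2) = true) ∧ ∃ t ∈ D, ∀ l ∈ t, σ (rail s m l).2 = (rail s m l).1) := by
  unfold psiP
  rw [eval_bigOr]
  constructor
  · rintro (⟨f, hf, h⟩ | h)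
    · rw [List.mem_append, List.mem_append] at hf
      rcases hf with hf | hf | hf
      · obtain ⟨i, hi, rfl⟩ := List.mem_map.1 hf
        simp only [BF.eval, Bool.and_eq_true, Bool.not_eq_true'] at h
        exact Or.inl ⟨i, mem_sr.1 hi, h.1, Or.inl h.2⟩
      · obtain ⟨i, hi, rfl⟩ := List.mem_map.1 hf
        simp only [BF.eval, Bool.and_eq_true, Bool.not_eq_true'] at h
        exact Or.inl ⟨i, mem_sr.1 hi, h.1, Or.inr h.2⟩
      · obtain ⟨t, ht, rfl⟩ := List.mem_map.1 hf
        rw [eval_termP] at h
        exact Or.inr ⟨h.1, t, ht, h.2⟩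
    · simp only [BF.eval, Bool.and_eq_true, Bool.not_eq_true'] at h
      exact Or.inl ⟨s, le_rfl, h.1, Or.inl h.2⟩
  · rintro (⟨i, hi, h1, h2⟩ | ⟨h1, t, ht, h2⟩)
    · left
      rcases h2 with h2 | h2
      · refine ⟨_, List.mem_append_left _ (List.mem_map.2 ⟨i, mem_sr.2 hi, rfl⟩), ?_⟩
        simp only [BF.eval, Bool.and_eq_true, Bool.not_eq_true']
        exact ⟨h1, h2⟩
      · refine ⟨_, List.mem_append_right _ (List.mem_append_left _
          (List.mem_map.2 ⟨i, mem_sr.2 hi, rfl⟩)), ?_⟩
        simp only [BF.eval, Bool.and_eq_true, Bool.not_eq_true']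
        exact ⟨h1, h2⟩
    · left
      exact ⟨_, List.mem_append_right _ (List.mem_append_right _ (List.mem_map.2 ⟨t, ht, rfl⟩)),
        eval_termP.2 ⟨h1, h2⟩⟩

/-! ### First direction -/

/-- The exchange of `t_i` and `f_i` for the `i` with `Y i = false`. -/
def swp (s m : ℕ) (Y : ℕ → Bool) (x : ℕ) : ℕ :=
  if m ≤ x ∧ (x - m) / 3 < s ∧ Y ((x - m) / 3) = false then
    (if (x - m) % 3 = 0 then x + 1 else if (x - m) % 3 = 1 then x - 1 else x) else x

theorem swp_involutive (s m : ℕ) (Y : ℕ → Bool) : Function.Involutive (swp s m Y) := by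
  intro x
  by_cases h : m ≤ x ∧ (x - m) / 3 < s ∧ Y ((x - m) / 3) = false
  · by_cases h0 : (x - m) % 3 = 0
    · have e : swp s m Y x = x + 1 := by simp only [swp, if_pos h, if_pos h0]
      have e1 : (x + 1 - m) / 3 = (x - m) / 3 := by omega
      have e2 : (x + 1 - m) % 3 = 1 := by omega
      rw [e]
      simp only [swp, e1, e2]
      rw [if_pos ⟨by omega, h.2⟩, if_neg (by omega), if_pos trivial]
      omega
    · by_cases h1 : (x - m) % 3 = 1
      · have e : swp s m Y x = x - 1 := by simp only [swp, if_pos h, if_neg h0, if_pos h1]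
        have e1 : (x - 1 - m) / 3 = (x - m) / 3 := by omega
        have e2 : (x - 1 - m) % 3 = 0 := by omega
        rw [e]
        simp only [swp, e1, e2]
        rw [if_pos ⟨by omega, h.2⟩, if_pos trivial]
        omega
      · have e : swp s m Y x = x := by simp only [swp, if_pos h, if_neg h0, if_neg h1]
        rw [e, e]
  · have e : swp s m Y x = x := by simp only [swp, if_neg h]
    rw [e, e]

theorem swp_gv {s m i : ℕ} (Y : ℕ → Bool) (hi : i < s) :
    swp s m Y (gv m i 0) = if Y i = true then gv m i 0 else gv m i 1 := by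
  have e1 : (gv m i 0 - m) / 3 = i := by unfold gv; omega
  have e2 : (gv m i 0 - m) % 3 = 0 := by unfold gv; omega
  unfold swp
  rw [e1, e2]
  cases hY : Y i with
  | false =>
    rw [if_pos ⟨by unfold gv; omega, hi, rfl⟩, if_pos rfl]
    simp [gv]
  | true => simp

theorem swp_last {s m : ℕ} (Y : ℕ → Bool) : swp s m Y (gv m s 0) = gv m s 0 := by
  have e1 : (gv m s 0 - m) / 3 = s := by unfold gv; omega
  unfold swp
  rw [e1, if_neg (by omega)]

theorem soundP {s n : ℕ} {D : List (List (Bool × ℕ))} {Y : ℕ → Bool}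
    (hY : ∀ X : ℕ → Bool, ∃ t ∈ D, ∀ l ∈ t, mix s Y X l.2 = l.1) :
    ISOIMP (phiP s (s + n), psiP s (s + n) D) := by
  set m := s + n with hm
  obtain ⟨N0, hN0⟩ := Finset.exists_nat_subset_range ((phiP s m).vars ∪ (psiP s m D).vars)
  have hX : (phiP s m).vars ∪ (psiP s m D).vars ⊆ Finset.range (N0 + (m + 3 * s)) :=
    hN0.trans (Finset.range_subset_range.2 (by omega))
  rw [← isoImpliesOn_indep hX, isoImpliesOn_iff]
  have hinv := swp_involutive s m Y
  have hmap : ∀ v, v < N0 + (m + 3 * s) → swp s m Y v < N0 + (m + 3 * s) := by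
    intro v hv
    unfold swp
    split_ifs <;> omega
  refine ⟨hinv.toPerm, ?_, ?_, ?_⟩
  · intro v
    rw [Finset.mem_range, Finset.mem_range, Function.Involutive.coe_toPerm]
    refine ⟨hmap v, fun h => ?_⟩
    have := hmap _ h
    rwa [hinv v] at this
  · intro v hv
    rw [Finset.mem_range] at hv
    rw [Function.Involutive.coe_toPerm]
    unfold swp
    rw [if_neg (by omega)]
  · intro σ hσ
    rw [BF.eval_rename, Function.Involutive.coe_toPerm, eval_phiP] at hσ
    rw [eval_psiP]
    have hval : ∀ i < s, (Y i = true → σ (gv m i 0) = true) ∧ (Y i = false → σ (gv m i 1) = true) := by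
      intro i hi
      have h1 := hσ i hi.le
      rw [swp_gv Y hi] at h1
      constructor
      · intro h
        rwa [if_pos h] at h1
      · intro h
        rwa [if_neg (by rw [h]; decide)] at h1
    have hlast : σ (gv m s 0) = true := by
      have h1 := hσ s le_rfl
      rwa [swp_last] at h1
    by_cases hv : ∀ i ≤ s, σ (gv m i 2) = true
    · right
      refine ⟨hv, ?_⟩
      obtain ⟨t, ht, hl⟩ := hY σ
      refine ⟨t, ht, fun l hl' => ?_⟩
      have h1 := hl l hl'
      unfold rail
      by_cases hs : l.2 < s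
      · rw [if_pos hs]
        unfold mix at h1
        rw [if_pos hs] at h1
        cases hb : l.1 with
        | true =>
          rw [hb] at h1
          simp only [if_true]
          exact (hval _ hs).1 h1
        | false =>
          rw [hb] at h1
          simp only [Bool.false_eq_true, if_false]
          exact (hval _ hs).2 h1
      · rw [if_neg hs]
        unfold mix at h1
        rwa [if_neg hs] at h1
    · left
      push Not at hv
      obtain ⟨i, hi, hvi⟩ := hv
      rw [ne_eq, Bool.not_eq_true] at hvi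
      refine ⟨i, hi, hvi, ?_⟩
      rcases hi.lt_or_eq with h | h
      · cases hY' : Y i with
        | true => exact Or.inl ((hval i h).1 hY')
        | false => exact Or.inr ((hval i h).2 hY')
      · subst h
        exact Or.inl hlast

/-! ### Second direction -/

theorem completeP {s n : ℕ} {D : List (List (Bool × ℕ))}
    (hD : ∀ t ∈ D, ∀ l ∈ t, l.2 < s + n) (h : ISOIMP (phiP s (s + n), psiP s (s + n) D)) :
    ∃ Y : ℕ → Bool, ∀ X : ℕ → Bool, ∃ t ∈ D, ∀ l ∈ t, mix s Y X l.2 = l.1 := by
  classical
  set m := s + n with hm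
  obtain ⟨π, -, -, h⟩ := isoImpliesOn_iff.1 h
  change Implies ((phiP s m).rename π) (psiP s m D) at h
  let S : Finset ℕ := (Finset.range (s + 1)).image fun i => π (gv m i 0)
  have h' : ∀ σ : ℕ → Bool, (∀ x ∈ S, σ x = true) → (psiP s m D).eval σ = true := by
    intro σ hσ
    apply h
    rw [BF.eval_rename, eval_phiP]
    intro i hi
    exact hσ _ (Finset.mem_image.2 ⟨i, Finset.mem_range.2 (by omega), rfl⟩)
  have hcard : S.card = s + 1 := by
    rw [Finset.card_image_of_injective, Finset.card_range]
    intro i j hij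
    have := π.injective hij
    unfold gv at this
    omega
  -- one variable of each group
  have hgrp : ∀ i ≤ s, ∃ j < 3, gv m i j ∈ S := by
    intro i hi
    by_contra hcon
    push Not at hcon
    have h1 := h' (fun x => !decide (x = gv m i 0 ∨ x = gv m i 1 ∨ x = gv m i 2)) (by
      intro x hx
      rw [Bool.not_eq_true', decide_eq_false_iff_not]
      rintro (rfl | rfl | rfl)
      · exact hcon 0 (by omega) hx
      · exact hcon 1 (by omega) hx
      · exact hcon 2 (by omega) hx)
    rw [eval_psiP] at h1
    rcases h1 with ⟨k, hk, h2, h3⟩ | ⟨h2, _⟩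
    · simp only [Bool.not_eq_false', decide_eq_true_eq, Bool.not_eq_true',
        decide_eq_false_iff_not] at h2 h3
      unfold gv at h2 h3
      omega
    · have h3 := h2 i hi
      simp only [Bool.not_eq_true', decide_eq_false_iff_not] at h3
      exact h3 (Or.inr (Or.inr trivial))
  choose! g hg3 hgS using hgrp
  have hSeq : S = (Finset.range (s + 1)).image fun i => gv m i (g i) := by
    symm
    refine Finset.eq_of_subset_of_card_le ?_ ?_
    · intro x hx
      obtain ⟨i, hi, rfl⟩ := Finset.mem_image.1 hx
      exact hgS i (by have := Finset.mem_range.1 hi; omega)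
    · rw [hcard, Finset.card_image_of_injOn, Finset.card_range]
      intro i hi j hj hij
      have h1 := hg3 i (by have := Finset.mem_range.1 (Finset.mem_coe.1 hi); omega)
      have h2 := hg3 j (by have := Finset.mem_range.1 (Finset.mem_coe.1 hj); omega)
      simp only [gv] at hij
      omega
  have hmem : ∀ x ∈ S, ∃ i ≤ s, x = gv m i (g i) := by
    intro x hx
    rw [hSeq] at hx
    obtain ⟨i, hi, rfl⟩ := Finset.mem_image.1 hx
    exact ⟨i, by have := Finset.mem_range.1 hi; omega, rfl⟩
  have huniq : ∀ i ≤ s, ∀ j < 3, gv m i j ∈ S → j = g i := by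
    intro i hi j hj hij
    obtain ⟨k, hk, h1⟩ := hmem _ hij
    have h2 := hg3 k hk
    unfold gv at h1
    have h3 : i = k := by omega
    subst h3
    omega
  refine ⟨fun i => decide (gv m i 0 ∈ S), fun X => ?_⟩
  let σ : ℕ → Bool := fun x => if x ∈ S then true else if x < m then X x else
    decide ((x - m) % 3 = 2)
  have h1 := h' σ (fun x hx => if_pos hx)
  have hv : ∀ i, σ (gv m i 2) = true := by
    intro i
    simp only [σ]
    split_ifs with h2 h3
    · rfl
    · exfalso
      unfold gv at h3
      omega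
    · rw [decide_eq_true_eq]
      unfold gv
      omega
  rw [eval_psiP] at h1
  rcases h1 with ⟨k, hk, h2, _⟩ | ⟨_, t, ht, h2⟩
  · rw [hv k] at h2
    exact absurd h2 (by decide)
  · refine ⟨t, ht, fun l hl => ?_⟩
    have h3 := h2 l hl
    have hlt := hD t ht l hl
    unfold mix
    by_cases hs : l.2 < s
    · rw [if_pos hs]
      unfold rail at h3
      rw [if_pos hs] at h3
      cases hb : l.1 with
      | true =>
        rw [hb] at h3
        simp only [if_true, σ] at h3
        rw [decide_eq_true_eq]
        by_contra hcon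
        rw [if_neg hcon, if_neg (by unfold gv; omega), decide_eq_true_eq] at h3
        unfold gv at h3
        omega
      | false =>
        rw [hb] at h3
        simp only [Bool.false_eq_true, if_false, σ] at h3
        rw [decide_eq_false_iff_not]
        intro hcon
        have h4 : gv m l.2 1 ∈ S := by
          by_contra hcon'
          rw [if_neg hcon', if_neg (by unfold gv; omega), decide_eq_true_eq] at h3
          unfold gv at h3
          omega
        have h5 := huniq l.2 hs.le 0 (by omega) hcon
        have h6 := huniq l.2 hs.le 1 (by omega) h4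
        omega
    · rw [if_neg hs]
      unfold rail at h3
      rw [if_neg hs] at h3
      have h4 : l.2 ∉ S := by
        intro hcon
        obtain ⟨k, hk, h5⟩ := hmem _ hcon
        unfold gv at h5
        omega
      simp only [σ] at h3
      rwa [if_neg h4, if_pos hlt] at h3

theorem redP_correct (I : List Unit × List Unit × List (List (Bool × ℕ))) (hI : EAPr I) :
    EA I ↔ ISOIMP (redP I) := by
  constructor
  · rintro ⟨Y, hY⟩
    exact soundP hY
  · exact completeP hI.2

attribute [local fun_prop] Poly.range_length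

theorem poly_gv {α : Type} [TEnc α] {m i : α → ℕ} (hm : Poly m) (hi : Poly i) (j : ℕ) :
    Poly (fun a => gv (m a) (i a) j) := by
  unfold gv
  fun_prop

attribute [local fun_prop] poly_gv poly_lit

theorem poly_rail {α : Type} [TEnc α] {s m : α → ℕ} {l : α → Bool × ℕ} (hs : Poly s) (hm : Poly m)
    (hl : Poly l) : Poly (fun a => rail (s a) (m a) (l a)) := by
  unfold rail
  fun_prop

attribute [local fun_prop] poly_rail

theorem poly_redP : Poly redP := by
  unfold redP phiP psiP termP
  fun_prop

/-- ISO-IMP is `Σ₂ᵖ`-hard for a conjunction of variables and a disjunctive normal form. -/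
theorem hardS2_pos : HardS2 (fun p : BF × BF => IsPos p.1 ∧ IsDNF p.2) ISOIMP :=
  hardS2_EA.trans poly_redP (fun _ _ => ⟨isPos_phiP _ _, isDNF_psiP _ _ _⟩) redP_correct

theorem hardS2_pos' : HardS2 (fun _ => True)
    (fun p : BF × BF => (IsPos p.1 ∧ IsDNF p.2) ∧ ISOIMP p) :=
  hardS2_EA.trans poly_redP (fun _ _ => trivial) (fun I hI =>
    (redP_correct I hI).trans ⟨fun h => ⟨⟨isPos_phiP _ _, isDNF_psiP _ _ _⟩, h⟩, fun h => h.2⟩)

end Pool.Agent.Y646.II
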